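import Mathlib
import Pool.Agent.Lib.MP_03b26c_an.OwnMain

set_option autoImplicit false

namespace Pool.Agent.Results.MP_03b26c_an.QuadH1

open Pool.Agent.Lib.MP_03b26c_an.Own MeasureTheory

/-- Every quadrilateral `Ω`, convex or not (the region enclosed by a simple closed polygon with
four sides), satisfies `|Ω| μ₁(Ω) ≤ π²`, where `μ₁(Ω)` is the infimum of the Rayleigh quotient
over the functions of mean value zero in the Sobolev space `H¹(Ω)`; the open unit square is a
quadrilateral of area `1`, and its first Neumann eigenvalue is `π²`. -/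
theorem result :
    (∀ Ω : Set E2, IsQuadrilateral Ω → (volume Ω).toReal * mu1 Ω ≤ Real.pi ^ 2) ∧
      IsQuadrilateral unitSquare ∧ (volume unitSquare).toReal = 1 ∧
      mu1 unitSquare = Real.pi ^ 2 :=
  ⟨fun _ h => upper h, unit_quad, unit_vol, unit_mu1⟩

end Pool.Agent.Results.MP_03b26c_an.QuadH1
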